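import Pool.Agent.U447.Exp.Grid

set_option autoImplicit false

namespace Pool.Agent.U447.Exp

open Finset

theorem fin_ne_top {s t : Finset ℂ} (hs : s.Nonempty) (ht : t.Nonempty) :
    Metric.hausdorffEDist (s : Set ℂ) (t : Set ℂ) ≠ ⊤ :=
  Metric.hausdorffEDist_ne_top_of_nonempty_of_bounded (by simpa using hs) (by simpa using ht)
    s.finite_toSet.isBounded t.finite_toSet.isBounded

theorem V_nonempty {M m : ℕ} (hm : 0 < m) (w : Fin m → ZMod M) (i : ℕ) : (V w i).Nonempty :=
  ⟨_, (mem_V w i _).2 ⟨⟨0, hm⟩, rfl⟩⟩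

theorem V_card {M m : ℕ} (w : Fin m → ZMod M) (i : ℕ) : (V w i).card ≤ m := by
  unfold V
  refine le_trans card_image_le ?_
  simp

theorem V_dist {M m : ℕ} [NeZero M] (w : Fin m → ZMod M) (i l : ℕ) :
    Metric.hausdorffDist (((V w i).image e : Finset ℂ) : Set ℂ)
      (((V w l).image e : Finset ℂ) : Set ℂ) ≤ 2 * Real.pi / M := by
  have h0 : 0 ≤ 2 * Real.pi / M := by
    have := Mpos (M := M)
    positivity
  have key : ∀ i l : ℕ, ∀ x ∈ (((V w i).image e : Finset ℂ) : Set ℂ),
      ∃ y ∈ (((V w l).image e : Finset ℂ) : Set ℂ), dist x y ≤ 2 * Real.pi / M := by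
    intro i l x hx
    rw [Finset.mem_coe] at hx
    obtain ⟨a, ha, rfl⟩ := mem_image.1 hx
    obtain ⟨k, rfl⟩ := (mem_V _ _ _).1 ha
    refine ⟨e (w k + if (k : ℕ) < l then 1 else 0), ?_, ?_⟩
    · rw [Finset.mem_coe]
      exact mem_image_of_mem _ ((mem_V _ _ _).2 ⟨k, rfl⟩)
    · rw [dist_eq_norm]; exact e_if _ _ _
  apply Metric.hausdorffDist_le_of_mem_dist h0 (key i l)
  intro x hx
  exact key l i x hx

theorem main (C : ℝ) (hC0 : 0 ≤ C) (n0 : ℕ) (hn0 : 13 * (C + 1) ≤ n0) (r : Finset ℂ → Finset ℂ)
    (hr1 : ∀ s : Finset ℂ, s.Nonempty → s.card ≤ 2 * n0 →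
              (r s).Nonempty ∧ (r s).card ≤ 2 * n0 - 1)
    (hr2 : ∀ s : Finset ℂ, s.Nonempty → s.card ≤ 2 * n0 - 1 → r s = s)
    (hr3 : ∀ s t : Finset ℂ, s.Nonempty → s.card ≤ 2 * n0 → t.Nonempty → t.card ≤ 2 * n0 →
              Metric.hausdorffDist ((r s : Finset ℂ) : Set ℂ) ((r t : Finset ℂ) : Set ℂ)
                ≤ C * Metric.hausdorffDist ((s : Finset ℂ) : Set ℂ) ((t : Finset ℂ) : Set ℂ)) :
    False := by
  have hn0' : 0 < n0 := by
    have : (0 : ℝ) < n0 := by linarith
    exact_mod_cast this
  set n : ℕ := 2 * n0 - 1 with hn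
  have hn2 : 2 * n0 = n + 1 := by omega
  rw [hn2] at hr1 hr3
  have hnpos : 0 < n := by omega
  have hodd : Odd n := ⟨n0 - 1, by omega⟩
  have hpi := Real.pi_pos
  obtain ⟨s, hs, hsep0⟩ := yy_sep n
  set η : ℝ := min (s / 8) (1 / 8) with hη
  have hηs : η ≤ s / 8 := min_le_left _ _
  have hη8 : η ≤ 1 / 8 := min_le_right _ _
  have hηpos : 0 < η := lt_min (by positivity) (by norm_num)
  set ε : ℝ := 2 * η with hε
  have hsep : ∀ i < n, ∀ j < n, i ≠ j → 2 * ε + η ≤ |yy n i - yy n j| := by
    intro i hi j hj hij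
    have := hsep0 i hi j hj hij
    linarith
  obtain ⟨K, hK⟩ := exists_nat_gt ((C + 1) * (2 * Real.pi) / η)
  have hKpos : (0 : ℝ) < K := lt_trans (by positivity) hK
  have hKpos' : 0 < K := by exact_mod_cast hKpos
  obtain ⟨M, hM⟩ : ∃ M : ℕ, M = 32 * (n + 1) * K := ⟨_, rfl⟩
  have : NeZero M := ⟨by rw [hM]; positivity⟩
  have hMp := Mpos (M := M)
  have hMK : (K : ℝ) ≤ M := by
    have : K ≤ M := by rw [hM]; nlinarith
    exact_mod_cast this
  have hbig : (C + 1) * (2 * Real.pi / M) < η := by
    rw [div_lt_iff₀ hηpos] at hK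
    rw [← mul_div_assoc, div_lt_iff₀ hMp]
    calc (C + 1) * (2 * Real.pi) < K * η := hK
      _ ≤ η * M := by nlinarith
  have hst0 : 0 < 2 * Real.pi / M := by positivity
  have hstep : 2 * Real.pi / M < η := by nlinarith
  -- the image of a set of grid points
  have hnorm : ∀ S : Finset (ZMod M), S.Nonempty → S.card ≤ n + 1 →
      ∀ z ∈ r (S.image e), 1 / 2 ≤ ‖z‖ := by
    intro S hS hSc z hz
    have hAc : (S.image e).card = S.card := card_image_of_injective _ e_inj
    have hA : (S.image e).Nonempty := hS.image _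
    have hAnorm : ∀ a ∈ S.image e, ‖a‖ = 1 := by
      intro a ha
      obtain ⟨k, _, rfl⟩ := mem_image.1 ha
      exact e_norm k
    rcases Nat.lt_or_ge n S.card with hlt | hle
    · -- two close points
      obtain ⟨x, hx, y, hy, hxy, hq⟩ :=
        Finset.exists_ne_map_eq_of_card_lt_of_maps_to (s := S) (t := range n0)
          (f := fun x : ZMod M => x.val / (64 * K)) (by rw [card_range]; omega) (by
            intro x _
            simp only [coe_range, Set.mem_Iio]
            rw [Nat.div_lt_iff_lt_mul (by positivity)]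
            have := ZMod.val_lt x
            have h3 : M = n0 * (64 * K) := by
              rw [hM, ← hn2]; ring
            omega)
      set B := (S.image e).erase (e x) with hB
      have hyB : e y ∈ B := by
        rw [hB, mem_erase]
        exact ⟨fun h => hxy (e_inj h).symm, mem_image_of_mem _ hy⟩
      have hBne : B.Nonempty := ⟨_, hyB⟩
      have hBc : B.card ≤ n := by
        rw [hB, card_erase_of_mem (mem_image_of_mem _ hx), hAc]
        omega
      have hrB : r B = B := hr2 B hBne hBc
      have hdxy : ‖e x - e y‖ ≤ 2 * Real.pi * (64 * K) / M := by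
        have h4 := e_dist (M := M) ((x.val : ℕ) : ℤ) ((y.val : ℕ) : ℤ)
        have hxv : (((x.val : ℕ) : ℤ) : ZMod M) = x := by
          rw [Int.cast_natCast, ZMod.natCast_zmod_val]
        have hyv : (((y.val : ℕ) : ℤ) : ZMod M) = y := by
          rw [Int.cast_natCast, ZMod.natCast_zmod_val]
        rw [hxv, hyv, Int.cast_natCast, Int.cast_natCast] at h4
        refine le_trans h4 ?_
        rw [div_le_div_iff_of_pos_right hMp]
        apply mul_le_mul_of_nonneg_left _ (by positivity)
        have h5 : x.val / (64 * K) = y.val / (64 * K) := hq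
        have h64 : 0 < 64 * K := by positivity
        have h6 := Nat.div_add_mod x.val (64 * K)
        have h7 := Nat.div_add_mod y.val (64 * K)
        have h8 := Nat.mod_lt x.val h64
        have h9 := Nat.mod_lt y.val h64
        rw [h5] at h6
        rw [abs_le]
        constructor
        · have : y.val ≤ x.val + 64 * K := by omega
          have h10 : (y.val : ℝ) ≤ x.val + 64 * K := by exact_mod_cast this
          linarith
        · have : x.val ≤ y.val + 64 * K := by omega
          have h10 : (x.val : ℝ) ≤ y.val + 64 * K := by exact_mod_cast this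
          linarith
      have hd : Metric.hausdorffDist ((S.image e : Finset ℂ) : Set ℂ) (B : Set ℂ)
          ≤ 2 * Real.pi * (64 * K) / M := by
        have h0 : 0 ≤ 2 * Real.pi * (64 * K) / M := by positivity
        apply Metric.hausdorffDist_le_of_mem_dist h0
        · intro a ha
          by_cases hax : a = e x
          · exact ⟨e y, hyB, by rw [hax, dist_eq_norm]; exact hdxy⟩
          · exact ⟨a, by rw [Finset.mem_coe, hB, mem_erase]; exact ⟨hax, ha⟩,
              by rw [dist_self]; exact h0⟩
        · intro b hb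
          rw [Finset.mem_coe, hB, mem_erase] at hb
          exact ⟨b, hb.2, by rw [dist_self]; exact h0⟩
      have hrA := hr1 (S.image e) hA (by omega)
      have h11 := hr3 (S.image e) B hA (by omega) hBne (by omega)
      rw [hrB] at h11
      have h12 := Metric.hausdorffDist_triangle (s := ((r (S.image e) : Finset ℂ) : Set ℂ))
        (t := (B : Set ℂ)) (u := ((S.image e : Finset ℂ) : Set ℂ)) (fin_ne_top hrA.1 hBne)
      rw [Metric.hausdorffDist_comm (s := (B : Set ℂ))] at h12
      have h13 : 2 * Real.pi * (64 * K) / M = 2 * Real.pi / n0 := by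
        have hn0r : (n0 : ℝ) ≠ 0 := by positivity
        have h3 : (M : ℝ) = n0 * (64 * K) := by
          have : M = n0 * (64 * K) := by rw [hM, ← hn2]; ring
          exact_mod_cast this
        rw [h3]
        field_simp
      have h14 : (C + 1) * (2 * Real.pi / n0) < 1 / 2 := by
        have hn0r : (0 : ℝ) < n0 := by positivity
        rw [← mul_div_assoc, div_lt_iff₀ hn0r]
        have := Real.pi_lt_d2
        nlinarith
      have h15 : Metric.hausdorffDist ((r (S.image e) : Finset ℂ) : Set ℂ)
          ((S.image e : Finset ℂ) : Set ℂ) < 1 / 2 := by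
        rw [h13] at hd
        have : C * Metric.hausdorffDist ((S.image e : Finset ℂ) : Set ℂ) (B : Set ℂ)
            ≤ C * (2 * Real.pi / n0) := mul_le_mul_of_nonneg_left hd hC0
        linarith
      obtain ⟨a, ha, hza⟩ := Metric.exists_dist_lt_of_hausdorffDist_lt (x := z)
        (by simpa using hz) h15 (fin_ne_top hrA.1 hA)
      have h16 := hAnorm a (by simpa using ha)
      rw [dist_eq_norm] at hza
      have h17 := norm_sub_norm_le a z
      rw [norm_sub_rev] at h17
      linarith
    · rw [hr2 _ hA (by omega)] at hz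
      rw [hAnorm z hz]
      norm_num
  refine parity M n hodd (fun S => label (yy n) ε n (r (S.image e))) (fun S => label_le _ _ _ _)
    ?_ ?_
  · intro w
    have hne : ∀ i, ((V w i).image e).Nonempty := fun i => (V_nonempty (by omega) w i).image _
    have hc : ∀ i, ((V w i).image e).card ≤ n + 1 :=
      fun i => le_trans card_image_le (V_card w i)
    refine no_full n (yy n) ε η hηpos le_rfl hη8 (yy_abs n) hsep
      (fun i => r ((V w i).image e)) ?_ ?_ ?_
    · intro i _
      exact (hr1 _ (hne i) (hc i)).2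
    · intro i _ z hz
      exact hnorm (V w i) (V_nonempty (by omega) w i) (V_card w i) z hz
    · intro i _ l _ z hz
      have h1 := hr3 _ _ (hne i) (hc i) (hne l) (hc l)
      have h2 : Metric.hausdorffDist ((r ((V w i).image e) : Finset ℂ) : Set ℂ)
          ((r ((V w l).image e) : Finset ℂ) : Set ℂ) < η := by
        have := mul_le_mul_of_nonneg_left (V_dist w i l) hC0
        linarith
      obtain ⟨z', hz', hd⟩ := Metric.exists_dist_lt_of_hausdorffDist_lt (x := z)
        (by simpa using hz) h2 (fin_ne_top (hr1 _ (hne i) (hc i)).1 (hr1 _ (hne l) (hc l)).1)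
      exact ⟨z', by simpa using hz', by rw [← dist_eq_norm]; exact hd⟩
  · have heq : ∀ u : Fin n → ZMod M, (Full (fun S => label (yy n) ε n (r (S.image e))) u ↔
        Full (fun S => label (yy n) ε n (S.image e)) u) := by
      intro u
      have h1 : ∀ i, r ((V u i).image e) = (V u i).image e := fun i =>
        hr2 _ ((V_nonempty hnpos u i).image _) (le_trans card_image_le (V_card u i))
      unfold Full
      simp only [h1]
    simp only [heq]
    exact grid_existsUnique hM hstep le_rfl hsep

end Pool.Agent.U447.Exp
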