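import Mathlib

set_option autoImplicit false

namespace Pool.Agent.U447.Exp

open Finset

/-- `z` lies in the `j`-th sector -/
def near (y : ℕ → ℝ) (ε : ℝ) (j : ℕ) (z : ℂ) : Prop := 0 < z.re ∧ |z.im - y j| < ε

def inBox (y : ℕ → ℝ) (ε : ℝ) (n : ℕ) (B : Finset ℂ) : Prop :=
  (∀ z ∈ B, ∃ j < n, near y ε j z) ∧ ∀ j < n, ∃ z ∈ B, near y ε j z

def neg (y : ℕ → ℝ) (ε : ℝ) (j : ℕ) (B : Finset ℂ) : Prop :=
  ∃ z ∈ B, near y ε j z ∧ z.im < y j

open Classical in
noncomputable def label (y : ℕ → ℝ) (ε : ℝ) (n : ℕ) (B : Finset ℂ) : ℕ :=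
  if inBox y ε n B then
    (if h : ∃ j, j < n ∧ neg y ε j B then Nat.find h + 1 else 0) else n + 1

theorem label_le (y : ℕ → ℝ) (ε : ℝ) (n : ℕ) (B : Finset ℂ) : label y ε n B ≤ n + 1 := by
  classical
  unfold label
  split_ifs with h1 h2
  · have := (Nat.find_spec h2).1
    omega
  · omega
  · omega

theorem label_zero {y : ℕ → ℝ} {ε : ℝ} {n : ℕ} {B : Finset ℂ} :
    label y ε n B = 0 ↔ inBox y ε n B ∧ ∀ j < n, ¬ neg y ε j B := by
  classical
  unfold label
  split_ifs with h1 h2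
  · constructor
    · intro h; exact h.elim
    · rintro ⟨_, h⟩
      obtain ⟨j, hj, hn⟩ := h2
      exact absurd hn (h j hj)
  · push Not at h2
    simp only [true_iff]
    exact ⟨h1, h2⟩
  · constructor
    · intro h; exact h.elim
    · rintro ⟨h, _⟩; exact absurd h h1

theorem label_succ {y : ℕ → ℝ} {ε : ℝ} {n : ℕ} {B : Finset ℂ} {j : ℕ} (hj : j < n) :
    label y ε n B = j + 1 ↔ inBox y ε n B ∧ neg y ε j B ∧ ∀ i < j, ¬ neg y ε i B := by
  classical
  unfold label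
  split_ifs with h1 h2
  · constructor
    · intro h
      have h3 : Nat.find h2 = j := by omega
      rw [Nat.find_eq_iff] at h3
      refine ⟨h1, h3.1.2, fun i hi hn => h3.2 i hi ⟨by omega, hn⟩⟩
    · rintro ⟨_, hn, hi⟩
      have : Nat.find h2 = j := by
        rw [Nat.find_eq_iff]
        exact ⟨⟨hj, hn⟩, fun i hij hh => hi i hij hh.2⟩
      omega
  · push Not at h2
    constructor
    · intro h; first | exact h.elim | omega
    · rintro ⟨_, hn, _⟩
      exact absurd hn (h2 j hj)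
  · constructor
    · intro h; omega
    · rintro ⟨h, _⟩; exact absurd h h1

theorem label_top {y : ℕ → ℝ} {ε : ℝ} {n : ℕ} {B : Finset ℂ}
    (h : label y ε n B = n + 1) : ¬ inBox y ε n B := by
  classical
  unfold label at h
  intro hb
  rw [if_pos hb] at h
  split_ifs at h with h2
  · have := (Nat.find_spec h2).1
    omega

theorem abs_im_le {z w : ℂ} {η : ℝ} (h : ‖z - w‖ < η) : |z.im - w.im| < η := by
  have := Complex.abs_im_le_norm (z - w)
  rw [Complex.sub_im] at this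
  linarith

theorem abs_re_le {z w : ℂ} {η : ℝ} (h : ‖z - w‖ < η) : |z.re - w.re| < η := by
  have := Complex.abs_re_le_norm (z - w)
  rw [Complex.sub_re] at this
  linarith

theorem near_sep {y : ℕ → ℝ} {ε η : ℝ} {n : ℕ}
    (hsep : ∀ i < n, ∀ j < n, i ≠ j → 2 * ε + η ≤ |y i - y j|) {i j : ℕ} (hi : i < n) (hj : j < n)
    {z w : ℂ} (hz : near y ε i z) (hw : near y ε j w) (h : ‖z - w‖ < η) : i = j := by
  by_contra hne
  have h1 := hsep i hi j hj hne
  have h2 := abs_im_le h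
  have h3 := hz.2
  have h4 := hw.2
  rw [abs_lt] at h2 h3 h4
  rcases abs_cases (y i - y j) with h5 | h5 <;> linarith

theorem no_full (n : ℕ) (y : ℕ → ℝ) (ε η : ℝ) (hη : 0 < η) (h2 : 2 * η ≤ ε) (hη8 : η ≤ 1 / 8)
    (hy : ∀ j < n, |y j| ≤ 1 / 4)
    (hsep : ∀ i < n, ∀ j < n, i ≠ j → 2 * ε + η ≤ |y i - y j|)
    (B : ℕ → Finset ℂ) (hcard : ∀ i ≤ n + 1, (B i).card ≤ n)
    (hnorm : ∀ i ≤ n + 1, ∀ z ∈ B i, 1 / 2 ≤ ‖z‖)
    (hclose : ∀ i ≤ n + 1, ∀ l ≤ n + 1, ∀ z ∈ B i, ∃ z' ∈ B l, ‖z - z'‖ < η) :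
    ¬ ∀ a ≤ n + 1, ∃ i ≤ n + 1, label y ε n (B i) = a := by
  intro h
  obtain ⟨i0, hi0, h0⟩ := h 0 (by omega)
  obtain ⟨iN, hiN, hN⟩ := h (n + 1) le_rfl
  have hb0 := label_zero.1 h0
  have hbN := label_top hN
  have hj : ∀ j, j < n → ∃ z ∈ B i0, near y ε j z ∧ y j ≤ z.im ∧ z.im < y j + η := by
    intro j hj
    obtain ⟨i, hi, hl⟩ := h (j + 1) (by omega)
    obtain ⟨z, hz, hnear, hlt⟩ := ((label_succ hj).1 hl).2.1
    obtain ⟨z', hz', hd⟩ := hclose i hi i0 hi0 z hz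
    obtain ⟨j', hj', hnear'⟩ := hb0.1.1 z' hz'
    have hjj : j = j' := near_sep hsep hj hj' hnear hnear' hd
    subst hjj
    have h3 : ¬ (z'.im < y j) := fun hh => hb0.2 j hj' ⟨z', hz', hnear', hh⟩
    have h4 := abs_im_le hd
    rw [abs_lt] at h4
    exact ⟨z', hz', hnear', by linarith, by linarith⟩
  choose! f hf1 hf2 hf3 hf4 using hj
  have hinj : Set.InjOn f (range n : Set ℕ) := by
    intro i hi j hj hij
    simp only [Finset.coe_range, Set.mem_Iio] at hi hj
    apply near_sep hsep hi hj (hf2 i hi) (hf2 j hj)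
    rw [hij, sub_self, norm_zero]
    exact hη
  have himg : (range n).image f = B i0 := by
    apply eq_of_subset_of_card_le
    · intro z hz
      obtain ⟨j, hj, rfl⟩ := mem_image.1 hz
      exact hf1 j (mem_range.1 hj)
    · rw [card_image_of_injOn hinj, card_range]
      exact hcard i0 hi0
  have key : ∀ j, j < n → ∀ z : ℂ, ‖z - f j‖ < η → near y ε j z := by
    intro j hj z hz
    have a1 := hnorm i0 hi0 _ (hf1 j hj)
    have a2 := hf2 j hj
    have a3 := hf3 j hj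
    have a4 := hf4 j hj
    have a5 := hy j hj
    have a6 := abs_im_le hz
    have a7 := abs_re_le hz
    rw [abs_lt] at a6 a7
    rw [abs_le] at a5
    constructor
    · have b1 : ‖f j‖ ^ 2 = (f j).re ^ 2 + (f j).im ^ 2 := by
        rw [Complex.sq_norm, Complex.normSq_apply]; ring
      have b2 : (f j).im ^ 2 ≤ (3 / 8) ^ 2 := by
        apply sq_le_sq'
        · linarith
        · linarith
      have b3 : (1 / 2 : ℝ) ^ 2 ≤ ‖f j‖ ^ 2 := by
        apply pow_le_pow_left₀ (by norm_num) a1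
      have b4 : 1 / 8 < (f j).re := by
        by_contra hcon
        push Not at hcon
        have := a2.1
        nlinarith
      linarith
    · rw [abs_lt]
      constructor <;> linarith
  apply hbN
  constructor
  · intro z hz
    obtain ⟨z', hz', hd⟩ := hclose iN hiN i0 hi0 z hz
    rw [← himg] at hz'
    obtain ⟨j, hj, rfl⟩ := mem_image.1 hz'
    exact ⟨j, mem_range.1 hj, key j (mem_range.1 hj) z hd⟩
  · intro j hj
    obtain ⟨z, hz, hd⟩ := hclose i0 hi0 iN hiN (f j) (hf1 j hj)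
    refine ⟨z, hz, key j hj z ?_⟩
    rw [norm_sub_rev]
    exact hd

end Pool.Agent.U447.Exp
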