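import Pool.Agent.U447.Exp.Parity
import Pool.Agent.U447.Exp.Label

set_option autoImplicit false

namespace Pool.Agent.U447.Exp

open Finset

noncomputable def e {M : ℕ} [NeZero M] (k : ZMod M) : ℂ := ZMod.stdAddChar k

variable {M : ℕ} [NeZero M]

theorem Mpos : (0 : ℝ) < M := by
  have := NeZero.pos M
  exact_mod_cast this

theorem e_int (m : ℤ) :
    e ((m : ℤ) : ZMod M) = Complex.exp (Complex.I * ((2 * Real.pi * m / M : ℝ) : ℂ)) := by
  unfold e
  rw [ZMod.stdAddChar_coe]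
  congr 1
  push_cast
  ring

theorem e_re (m : ℤ) : (e ((m : ℤ) : ZMod M)).re = Real.cos (2 * Real.pi * m / M) := by
  rw [e_int, mul_comm, Complex.exp_ofReal_mul_I_re]

theorem e_im (m : ℤ) : (e ((m : ℤ) : ZMod M)).im = Real.sin (2 * Real.pi * m / M) := by
  rw [e_int, mul_comm, Complex.exp_ofReal_mul_I_im]

theorem e_norm (k : ZMod M) : ‖e k‖ = 1 := by
  have := ZMod.coe_valMinAbs k
  rw [← this, e_int, mul_comm, Complex.norm_exp_ofReal_mul_I]

theorem e_add (a b : ZMod M) : e (a + b) = e a * e b := by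
  unfold e
  rw [AddChar.map_add_eq_mul]

theorem e_dist (a b : ℤ) : ‖e ((a : ℤ) : ZMod M) - e ((b : ℤ) : ZMod M)‖
    ≤ 2 * Real.pi * |(a : ℝ) - b| / M := by
  have h : ((a : ℤ) : ZMod M) = ((a - b : ℤ) : ZMod M) + ((b : ℤ) : ZMod M) := by
    push_cast; ring
  rw [h, e_add]
  have h2 : e (((a - b : ℤ)) : ZMod M) * e ((b : ℤ) : ZMod M) - e ((b : ℤ) : ZMod M)
      = (e (((a - b : ℤ)) : ZMod M) - 1) * e ((b : ℤ) : ZMod M) := by ring
  rw [h2, norm_mul, e_norm, mul_one, e_int]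
  refine le_trans Real.norm_exp_I_mul_ofReal_sub_one_le ?_
  rw [Real.norm_eq_abs, abs_div, abs_mul, abs_of_pos (Mpos (M := M)),
    abs_of_pos (by positivity : (0 : ℝ) < 2 * Real.pi)]
  push_cast
  exact le_rfl

theorem e_step (k : ZMod M) : ‖e (k + 1) - e k‖ ≤ 2 * Real.pi / M := by
  have h := e_dist (M := M) (ZMod.valMinAbs k + 1) (ZMod.valMinAbs k)
  push_cast at h
  simpa using h

/-- the two possible positions of a moving point are close -/
theorem e_if (k : ZMod M) (p q : Prop) [Decidable p] [Decidable q] :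
    ‖e (k + if p then 1 else 0) - e (k + if q then 1 else 0)‖ ≤ 2 * Real.pi / M := by
  have h0 : 0 ≤ 2 * Real.pi / M := by
    have := Mpos (M := M)
    positivity
  split_ifs
  · simpa using h0
  · rw [add_zero]; exact e_step k
  · rw [add_zero, norm_sub_rev]; exact e_step k
  · simpa using h0

theorem e_inj : Function.Injective (e (M := M)) := ZMod.injective_stdAddChar

theorem lift_re (k : ZMod M) (h : 0 < (e k).re) :
    ∃ m : ℤ, (m : ZMod M) = k ∧ |2 * Real.pi * m / M| < Real.pi / 2 := by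
  refine ⟨ZMod.valMinAbs k, ZMod.coe_valMinAbs k, ?_⟩
  have hM := Mpos (M := M)
  have h1 := ZMod.valMinAbs_mem_Ioc k
  rw [← ZMod.coe_valMinAbs k, e_re] at h
  set m := ZMod.valMinAbs k
  have h2 : |(m : ℝ)| * 2 ≤ M := by
    have h3 : |m| * 2 ≤ M := by
      rcases abs_cases m with h4 | h4 <;> rw [h4.1] <;> have := h1.1 <;> have := h1.2 <;>
        omega
    exact_mod_cast h3
  have h5 : |2 * Real.pi * m / M| ≤ Real.pi := by
    rw [abs_div, abs_mul, abs_of_pos hM, abs_of_pos (by positivity : (0 : ℝ) < 2 * Real.pi),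
      div_le_iff₀ hM]
    nlinarith [Real.pi_pos]
  by_contra hcon
  push Not at hcon
  have h6 : Real.cos |2 * Real.pi * m / M| ≤ 0 := by
    apply Real.cos_nonpos_of_pi_div_two_le_of_le hcon
    linarith [Real.pi_pos]
  rw [Real.cos_abs] at h6
  linarith

theorem lift_pair (hM4 : 4 ≤ M) (k : ZMod M) (h1 : 0 < (e k).re) (h2 : 0 < (e (k + 1)).re) :
    ∃ m : ℤ, (m : ZMod M) = k ∧ |2 * Real.pi * m / M| < Real.pi / 2 ∧
      |2 * Real.pi * ((m : ℝ) + 1) / M| < Real.pi / 2 := by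
  obtain ⟨m, hm, hlt⟩ := lift_re k h1
  refine ⟨m, hm, hlt, ?_⟩
  have hM := Mpos (M := M)
  have h3 : ((m + 1 : ℤ) : ZMod M) = k + 1 := by push_cast; rw [hm]
  rw [← h3, e_re] at h2
  push_cast at h2
  have h4 : 2 * Real.pi * ((m : ℝ) + 1) / M = 2 * Real.pi * m / M + 2 * Real.pi / M := by ring
  have h5 : 2 * Real.pi / M ≤ Real.pi / 2 := by
    rw [div_le_iff₀ hM]
    have : (4 : ℝ) ≤ M := by exact_mod_cast hM4
    nlinarith [Real.pi_pos]
  have h6 : 0 < 2 * Real.pi / M := by positivity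
  by_contra hcon
  push Not at hcon
  have h7 : Real.cos |2 * Real.pi * ((m : ℝ) + 1) / M| ≤ 0 := by
    apply Real.cos_nonpos_of_pi_div_two_le_of_le hcon
    rw [h4]
    rw [abs_lt] at hlt
    have := Real.pi_pos
    rw [abs_le]
    constructor <;> linarith
  rw [Real.cos_abs] at h7
  linarith

theorem mono_im (hM4 : 4 ≤ M) (k : ZMod M) (h1 : 0 < (e k).re) (h2 : 0 < (e (k + 1)).re) :
    (e k).im < (e (k + 1)).im := by
  obtain ⟨m, hm, hlt, hlt'⟩ := lift_pair hM4 k h1 h2
  have h3 : ((m + 1 : ℤ) : ZMod M) = k + 1 := by push_cast; rw [hm]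
  have hM := Mpos (M := M)
  rw [← h3, ← hm, e_im, e_im]
  push_cast
  rw [abs_lt] at hlt hlt'
  apply Real.strictMonoOn_sin ⟨by linarith, by linarith⟩ ⟨by linarith, by linarith⟩
  rw [div_lt_div_iff_of_pos_right hM]
  nlinarith [Real.pi_pos]

theorem cross_eq (hM4 : 4 ≤ M) (k : ZMod M) (h1 : 0 < (e k).re) (h2 : 0 < (e (k + 1)).re)
    (c : ℤ) (hc0 : 0 ≤ 2 * Real.pi * c / M) (hc : 2 * Real.pi * c / M < Real.pi / 2)
    (h3 : (e k).im < Real.sin (2 * Real.pi * c / M))
    (h4 : Real.sin (2 * Real.pi * c / M) ≤ (e (k + 1)).im) : k + 1 = (c : ZMod M) := by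
  obtain ⟨m, hm, hlt, hlt'⟩ := lift_pair hM4 k h1 h2
  have h5 : ((m + 1 : ℤ) : ZMod M) = k + 1 := by push_cast; rw [hm]
  have hM := Mpos (M := M)
  have hpi := Real.pi_pos
  rw [← h5, e_im] at h4
  rw [← hm, e_im] at h3
  push_cast at h4
  rw [abs_lt] at hlt hlt'
  have hc' : 2 * Real.pi * c / M ∈ Set.Icc (-(Real.pi / 2)) (Real.pi / 2) :=
    ⟨by linarith, by linarith⟩
  rw [Real.strictMonoOn_sin.lt_iff_lt ⟨by linarith, by linarith⟩ hc',
    div_lt_div_iff_of_pos_right hM] at h3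
  rw [Real.strictMonoOn_sin.le_iff_le hc' ⟨by linarith, by linarith⟩,
    div_le_div_iff_of_pos_right hM] at h4
  have h6 : (m : ℝ) < c := by nlinarith
  have h7 : (c : ℝ) ≤ m + 1 := by nlinarith
  have h8 : m < c := by exact_mod_cast h6
  have h9 : c ≤ m + 1 := by exact_mod_cast h7
  have h10 : c = m + 1 := by omega
  rw [← h5, h10]

/-- heights of the sectors -/
noncomputable def yy (n : ℕ) (j : ℕ) : ℝ := Real.sin (2 * Real.pi * j / (32 * (n + 1)))

theorem yy_abs (n j : ℕ) (hj : j < n) : |yy n j| ≤ 1 / 4 := by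
  unfold yy
  have hpi := Real.pi_pos
  have h1 : 0 ≤ 2 * Real.pi * j / (32 * (n + 1)) := by positivity
  have hjn : (j : ℝ) ≤ n := by exact_mod_cast hj.le
  have h2 : 2 * Real.pi * j / (32 * (n + 1)) ≤ 1 / 4 := by
    rw [div_le_iff₀ (by positivity)]
    have := Real.pi_lt_four
    have hj0 : (0 : ℝ) ≤ j := by positivity
    nlinarith
  rw [abs_of_nonneg (Real.sin_nonneg_of_nonneg_of_le_pi h1 (by linarith [Real.pi_gt_three]))]
  exact le_trans (Real.sin_le h1) h2

theorem ang_lt (n j : ℕ) (hj : j < n) :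
    0 ≤ 2 * Real.pi * j / (32 * (n + 1)) ∧ 2 * Real.pi * j / (32 * (n + 1)) < Real.pi / 2 := by
  have hpi := Real.pi_pos
  refine ⟨by positivity, ?_⟩
  have hjn : (j : ℝ) ≤ n := by exact_mod_cast hj.le
  rw [div_lt_iff₀ (by positivity)]
  have hj0 : (0 : ℝ) ≤ j := by positivity
  nlinarith

theorem yy_strict (n i j : ℕ) (hj : j < n) (hij : i < j) : yy n i < yy n j := by
  unfold yy
  have h1 := ang_lt n i (by omega)
  have h2 := ang_lt n j hj
  have hpi := Real.pi_pos
  apply Real.strictMonoOn_sin ⟨by linarith, by linarith⟩ ⟨by linarith, by linarith⟩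
  rw [div_lt_div_iff_of_pos_right (by positivity)]
  have : (i : ℝ) < j := by exact_mod_cast hij
  nlinarith

/-- separation of the heights -/
theorem yy_sep (n : ℕ) : ∃ s > 0, ∀ i < n, ∀ j < n, i ≠ j → s ≤ |yy n i - yy n j| := by
  have h : ∀ᶠ s : ℝ in nhdsWithin 0 (Set.Ioi 0), ∀ i ∈ Finset.range n, ∀ j ∈ Finset.range n,
      i ≠ j → s ≤ |yy n i - yy n j| := by
    rw [Filter.eventually_all_finset]
    intro i hi
    rw [Filter.eventually_all_finset]
    intro j hj
    by_cases hij : i = j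
    · exact Filter.Eventually.of_forall fun s h => absurd hij h
    · have hpos : 0 < |yy n i - yy n j| := by
        rw [abs_pos, sub_ne_zero]
        rw [mem_range] at hi hj
        rcases lt_or_gt_of_ne hij with h | h
        · exact (yy_strict n i j hj h).ne
        · exact (yy_strict n j i hi h).ne'
      filter_upwards [Ioo_mem_nhdsGT hpos] with s hs _
      exact hs.2.le
  obtain ⟨s, hs, hs0⟩ := (h.and self_mem_nhdsWithin).exists
  exact ⟨s, hs0, fun i hi j hj => hs i (mem_range.2 hi) j (mem_range.2 hj)⟩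

section grid

variable {n K : ℕ} (hM : M = 32 * (n + 1) * K) {ε η : ℝ} (hstep : 2 * Real.pi / M < η)
  (h2 : 2 * η ≤ ε)
  (hsep : ∀ i < n, ∀ j < n, i ≠ j → 2 * ε + η ≤ |yy n i - yy n j|)

include hM

theorem ang_eq (j : ℕ) :
    2 * Real.pi * (((j * K : ℕ) : ℤ) : ℝ) / M = 2 * Real.pi * j / (32 * (n + 1)) := by
  have hMp := Mpos (M := M)
  have h : (M : ℝ) = 32 * (n + 1) * K := by rw [hM]; push_cast; ring
  rw [h] at hMp ⊢
  have hK : (K : ℝ) ≠ 0 := by
    intro h0; rw [h0, mul_zero] at hMp; exact lt_irrefl _ hMp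
  have hn : (32 * ((n : ℝ) + 1)) ≠ 0 := by positivity
  push_cast
  field_simp

theorem M4 : 4 ≤ M := by
  have h : 0 < M := NeZero.pos M
  have hK : 0 < K := by
    rcases Nat.eq_zero_or_pos K with h0 | h0
    · rw [h0, mul_zero] at hM; omega
    · exact h0
  rw [hM]
  nlinarith

theorem P_im (j : ℕ) : (e ((((j * K : ℕ) : ℤ)) : ZMod M)).im = yy n j := by
  rw [e_im, ang_eq hM, yy]

theorem P_re (j : ℕ) (hj : j < n) : 0 < (e ((((j * K : ℕ) : ℤ)) : ZMod M)).re := by
  rw [e_re, ang_eq hM]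
  have := ang_lt n j hj
  have hpi := Real.pi_pos
  apply Real.cos_pos_of_mem_Ioo
  exact ⟨by linarith, by linarith⟩

include hstep h2

theorem near_P (j : ℕ) (hj : j < n) : near (yy n) ε j (e ((((j * K : ℕ) : ℤ)) : ZMod M)) := by
  refine ⟨P_re hM j hj, ?_⟩
  rw [P_im hM, sub_self, abs_zero]
  have hMp := Mpos (M := M)
  have : 0 < 2 * Real.pi / M := by positivity
  linarith

theorem near_Q (j : ℕ) (hj : j < n) :
    near (yy n) ε j (e ((((j * K : ℕ) : ℤ)) - 1 : ZMod M)) ∧
    (e ((((j * K : ℕ) : ℤ)) - 1 : ZMod M)).im < yy n j := by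
  have hMp := Mpos (M := M)
  have hpi := Real.pi_pos
  have h0 : 0 < 2 * Real.pi / M := by positivity
  have hM4 : 4 ≤ M := M4 hM
  have h5 : 2 * Real.pi / M ≤ Real.pi / 2 := by
    rw [div_le_iff₀ hMp]
    have : (4 : ℝ) ≤ M := by exact_mod_cast hM4
    nlinarith [Real.pi_pos]
  have ha := ang_lt n j hj
  have hb := ang_eq hM (M := M) j
  have hc : ((((j * K : ℕ) : ℤ)) - 1 : ZMod M) = ((((j * K : ℕ) : ℤ) - 1 : ℤ) : ZMod M) := by
    push_cast; ring
  have hd : 2 * Real.pi * ((((j * K : ℕ) : ℤ) - 1 : ℤ) : ℝ) / M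
      = 2 * Real.pi * (((j * K : ℕ) : ℤ) : ℝ) / M - 2 * Real.pi / M := by
    push_cast; ring
  have hM8 : 2 * Real.pi / M < Real.pi / 2 := by
    rw [div_lt_iff₀ hMp]
    have : (32 : ℝ) ≤ M := by
      have : 32 ≤ M := by
        have hK : 0 < K := by
          rcases Nat.eq_zero_or_pos K with h0 | h0
          · rw [h0, mul_zero] at hM; omega
          · exact h0
        rw [hM]
        nlinarith
      exact_mod_cast this
    nlinarith [Real.pi_pos]
  refine ⟨⟨?_, ?_⟩, ?_⟩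
  · rw [hc, e_re, hd, hb]
    apply Real.cos_pos_of_mem_Ioo
    exact ⟨by linarith, by linarith⟩
  · rw [← P_im hM j]
    apply abs_im_le
    have h6 := e_step (M := M) ((((j * K : ℕ) : ℤ)) - 1)
    rw [sub_add_cancel, norm_sub_rev] at h6
    linarith
  · rw [hc, e_im, hd, hb, yy]
    apply Real.strictMonoOn_sin ⟨by linarith, by linarith⟩ ⟨by linarith, by linarith⟩
    linarith

include hsep

theorem grid_exists :
    Full (fun S => label (yy n) ε n (S.image e))
      (fun k : Fin n => ((((k * K : ℕ) : ℤ)) - 1 : ZMod M)) := by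
  have hη : 0 < η := by
    have hMp := Mpos (M := M)
    have : 0 < 2 * Real.pi / M := by positivity
    linarith
  set u0 : Fin n → ZMod M := fun k : Fin n => ((((k * K : ℕ) : ℤ)) - 1 : ZMod M) with hu0
  -- nearness of all the points
  have hnear : ∀ i : ℕ, ∀ k : Fin n,
      near (yy n) ε k (e (u0 k + if (k : ℕ) < i then 1 else 0)) := by
    intro i k
    simp only [hu0]
    split_ifs
    · rw [sub_add_cancel]
      exact near_P hM hstep h2 k k.2
    · rw [add_zero]
      exact (near_Q hM hstep h2 k k.2).1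
  have hbox : ∀ i : ℕ, inBox (yy n) ε n ((V u0 i).image e) := by
    intro i
    constructor
    · intro z hz
      obtain ⟨x, hx, rfl⟩ := mem_image.1 hz
      obtain ⟨k, rfl⟩ := (mem_V _ _ _).1 hx
      exact ⟨k, k.2, hnear i k⟩
    · intro j hj
      exact ⟨_, mem_image_of_mem _ ((mem_V _ _ _).2 ⟨⟨j, hj⟩, rfl⟩), hnear i ⟨j, hj⟩⟩
  have hneg : ∀ i : ℕ, ∀ j < n, (neg (yy n) ε j ((V u0 i).image e) ↔ i ≤ j) := by
    intro i j hj
    constructor
    · rintro ⟨z, hz, hn1, hn2⟩
      obtain ⟨x, hx, rfl⟩ := mem_image.1 hz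
      obtain ⟨k, rfl⟩ := (mem_V _ _ _).1 hx
      have hkj : (k : ℕ) = j :=
        near_sep hsep k.2 hj (hnear i k) hn1 (by rw [sub_self, norm_zero]; exact hη)
      by_contra hcon
      push Not at hcon
      rw [if_pos (by omega)] at hn2
      simp only [hu0] at hn2
      rw [sub_add_cancel, P_im hM, hkj] at hn2
      exact lt_irrefl _ hn2
    · intro hij
      refine ⟨_, mem_image_of_mem _ ((mem_V _ _ _).2 ⟨⟨j, hj⟩, rfl⟩), hnear i ⟨j, hj⟩, ?_⟩
      rw [if_neg (by simpa using hij), add_zero]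
      exact (near_Q hM hstep h2 j hj).2
  intro a ha
  rcases Nat.eq_zero_or_pos a with rfl | hpos
  · refine ⟨n, le_rfl, label_zero.2 ⟨hbox n, ?_⟩⟩
    intro j hj
    rw [hneg n j hj]
    omega
  · obtain ⟨j, rfl⟩ : ∃ j, a = j + 1 := ⟨a - 1, by omega⟩
    refine ⟨j, by omega, (label_succ (by omega)).2 ⟨hbox j, ?_, ?_⟩⟩
    · rw [hneg j j (by omega)]
    · intro i hi
      rw [hneg j i (by omega)]
      omega

theorem grid_unique (u : Fin n → ZMod M)
    (hu : Full (fun S => label (yy n) ε n (S.image e)) u) :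
    u = (fun k : Fin n => ((((k * K : ℕ) : ℤ)) - 1 : ZMod M)) := by
  have hη : 0 < η := by
    have hMp := Mpos (M := M)
    have : 0 < 2 * Real.pi / M := by positivity
    linarith
  have hM4 : 4 ≤ M := M4 hM
  obtain ⟨i0, hi0, h0⟩ := hu 0 (by omega)
  have hb0 := label_zero.1 h0
  have hst : ∀ j, j < n → ∃ i ≤ n, label (yy n) ε n ((V u i).image e) = j + 1 :=
    fun j hj => hu (j + 1) (by omega)
  choose! st hst1 hst2 using hst
  have hk : ∀ j : Fin n, ∃ k : Fin n, u k + 1 = (((j * K : ℕ) : ℤ) : ZMod M) ∧ st j ≤ k := by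
    intro j
    obtain ⟨hbox, ⟨z, hz, hn1, hn2⟩, hless⟩ := (label_succ j.2).1 (hst2 j j.2)
    obtain ⟨x, hx, rfl⟩ := mem_image.1 hz
    obtain ⟨k, rfl⟩ := (mem_V _ _ _).1 hx
    have hmem : e (u k + if (k : ℕ) < i0 then 1 else 0) ∈ (V u i0).image e :=
      mem_image_of_mem _ ((mem_V _ _ _).2 ⟨k, rfl⟩)
    obtain ⟨j', hj', hn3⟩ := hb0.1.1 _ hmem
    have hjj : (j : ℕ) = j' := near_sep hsep j.2 hj' hn1 hn3 (lt_of_le_of_lt (e_if _ _ _) hstep)
    subst hjj
    have hge : yy n j ≤ (e (u k + if (k : ℕ) < i0 then 1 else 0)).im := by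
      by_contra hcon
      push Not at hcon
      exact hb0.2 j j.2 ⟨_, hmem, hn3, hcon⟩
    refine ⟨k, ?_⟩
    by_cases c1 : (k : ℕ) < st j
    · by_cases c2 : (k : ℕ) < i0
      · rw [if_pos c1] at hn2
        rw [if_pos c2] at hge
        linarith
      · rw [if_pos c1] at hn2 hn1
        rw [if_neg c2, add_zero] at hge hn3
        have := mono_im hM4 (u k) hn3.1 hn1.1
        linarith
    · by_cases c2 : (k : ℕ) < i0
      · rw [if_neg c1, add_zero] at hn2 hn1
        rw [if_pos c2] at hge hn3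
        refine ⟨?_, by omega⟩
        have ha := ang_lt n j j.2
        rw [← ang_eq hM (M := M)] at ha
        apply cross_eq hM4 (u k) hn1.1 hn3.1 _ ha.1 ha.2
        · rw [← e_im, P_im hM]; exact hn2
        · rw [← e_im, P_im hM]; exact hge
      · rw [if_neg c1] at hn2
        rw [if_neg c2] at hge
        linarith
  choose κ hκ1 hκ2 using hk
  have hmono : StrictMono κ := by
    intro j' j hjj
    rw [Fin.lt_def]
    refine lt_of_lt_of_le ?_ (hκ2 j)
    by_contra hcon
    push Not at hcon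
    obtain ⟨hbox, _, hless⟩ := (label_succ j.2).1 (hst2 j j.2)
    apply hless j' hjj
    have hmem : e (u (κ j') + if (κ j' : ℕ) < st j then 1 else 0) ∈ (V u (st j)).image e :=
      mem_image_of_mem _ ((mem_V _ _ _).2 ⟨κ j', rfl⟩)
    rw [if_neg (by omega), add_zero] at hmem
    have hu' : u (κ j') = (((j' * K : ℕ) : ℤ) : ZMod M) - 1 := by
      rw [← hκ1 j']; ring
    rw [hu'] at hmem
    have hQ := near_Q hM hstep h2 j' j'.2
    exact ⟨_, hmem, hQ.1, hQ.2⟩
  have hid : κ = id := by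
    apply (StrictMono.range_inj hmono strictMono_id).1
    have hsurj : Function.Surjective κ := Finite.surjective_of_injective hmono.injective
    rw [hsurj.range_eq, Set.range_id]
  funext j
  have := hκ1 j
  rw [hid, id] at this
  rw [← this]
  ring

theorem grid_existsUnique :
    ∃! u : Fin n → ZMod M, Full (fun S => label (yy n) ε n (S.image e)) u :=
  ⟨_, grid_exists hM hstep h2 hsep, fun u hu => grid_unique hM hstep h2 hsep u hu⟩

end grid

end Pool.Agent.U447.Exp
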