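import Mathlib

set_option autoImplicit false

namespace Pool.Agent.U447.Exp

open Finset

/-- vertex `i` of the simplex `w` -/
def V {M n : ℕ} (w : Fin n → ZMod M) (i : ℕ) : Finset (ZMod M) :=
  Finset.univ.image fun k : Fin n => w k + if (k : ℕ) < i then 1 else 0

theorem mem_V {M n : ℕ} (w : Fin n → ZMod M) (i : ℕ) (x : ZMod M) :
    x ∈ V w i ↔ ∃ k : Fin n, w k + (if (k : ℕ) < i then 1 else 0) = x := by
  simp [V]

theorem doors_even (N : ℕ) (L : ℕ → ℕ) (hL : ∀ i, i ≤ N → L i ≤ N)
    (h : ¬ ∀ a ≤ N, ∃ i ≤ N, L i = a)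
    [∀ j, Decidable (∀ a < N, ∃ i, i ≤ N ∧ i ≠ j ∧ L i = a)] :
    ∑ j ∈ range (N + 1), (if ∀ a < N, ∃ i, i ≤ N ∧ i ≠ j ∧ L i = a then (1 : ZMod 2) else 0)
      = 0 := by
  classical
  by_cases hd : ∃ j0 ≤ N, ∀ a < N, ∃ i, i ≤ N ∧ i ≠ j0 ∧ L i = a
  · obtain ⟨j0, hj0, hd0⟩ := hd
    set S := (range (N+1)).erase j0 with hS
    have hSc : S.card = N := by
      rw [card_erase_of_mem (by simpa using Nat.lt_succ_of_le hj0)]; simp
    have hsub : range N ⊆ S.image L := by
      intro a ha
      obtain ⟨i, hi, hij, rfl⟩ := hd0 a (mem_range.1 ha)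
      exact mem_image.2 ⟨i, mem_erase.2 ⟨hij, mem_range.2 (by omega)⟩, rfl⟩
    have hcard : (S.image L).card = S.card :=
      le_antisymm card_image_le (by rw [hSc]; simpa using card_le_card hsub)
    have hinj : Set.InjOn L S := card_image_iff.1 hcard
    have hlt : L j0 < N := by
      rcases lt_or_eq_of_le (hL j0 hj0) with h' | h'
      · exact h'
      · exfalso; apply h; intro a ha
        rcases lt_or_eq_of_le ha with h'' | h''
        · obtain ⟨i, hi, _, hh⟩ := hd0 a h''; exact ⟨i, hi, hh⟩
        · exact ⟨j0, hj0, by omega⟩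
    obtain ⟨j1, hj1, hj10, hj1L⟩ := hd0 _ hlt
    have key : ∀ j, j ≤ N → ((∀ a < N, ∃ i, i ≤ N ∧ i ≠ j ∧ L i = a) ↔ (j = j0 ∨ j = j1)) := by
      intro j hj
      constructor
      · intro hdj
        by_contra hne
        push Not at hne
        have hjS : j ∈ (S : Set ℕ) := by
          simp only [hS, coe_erase, Set.mem_sdiff, Finset.mem_coe, mem_range, Set.mem_singleton_iff]
          exact ⟨by omega, hne.1⟩
        have hLj : L j < N := by
          -- L j is in image
          have : L j ∈ S.image L := mem_image_of_mem _ hjS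
          have heq : range N = S.image L :=
            eq_of_subset_of_card_le hsub (by rw [hcard, hSc]; simp)
          rw [← heq] at this
          exact mem_range.1 this
        obtain ⟨i, hi, hij, hiL⟩ := hdj _ hLj
        by_cases hi0 : i = j0
        · subst hi0
          apply hne.2
          apply hinj hjS
          · simp only [hS, coe_erase, Set.mem_sdiff, Finset.mem_coe, mem_range,
              Set.mem_singleton_iff]
            exact ⟨by omega, hj10⟩
          · rw [← hiL, hj1L]
        · apply hij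
          apply hinj _ hjS hiL
          simp only [hS, coe_erase, Set.mem_sdiff, Finset.mem_coe, mem_range,
              Set.mem_singleton_iff]
          exact ⟨by omega, hi0⟩
      · rintro (rfl | rfl)
        · exact hd0
        · intro a ha
          obtain ⟨i, hi, hij, hiL⟩ := hd0 a ha
          by_cases hi1 : i = j
          · exact ⟨j0, hj0, Ne.symm hj10, by rw [← hj1L, ← hi1, hiL]⟩
          · exact ⟨i, hi, hi1, hiL⟩
    have : ∑ j ∈ range (N + 1),
        (if ∀ a < N, ∃ i, i ≤ N ∧ i ≠ j ∧ L i = a then (1 : ZMod 2) else 0)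
        = ∑ j ∈ range (N + 1), (if (j = j0 ∨ j = j1) then (1 : ZMod 2) else 0) := by
      apply sum_congr rfl
      intro j hj
      have := key j (by simpa [Nat.lt_succ_iff] using hj)
      simp only [this]
    rw [this, sum_boole]
    have : (range (N+1)).filter (fun j => j = j0 ∨ j = j1) = {j0, j1} := by
      ext x
      simp only [mem_filter, mem_range, mem_insert, mem_singleton]
      constructor
      · exact fun h => h.2
      · intro h
        refine ⟨?_, h⟩
        rcases h with rfl | rfl <;> omega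
    rw [this, card_pair (Ne.symm hj10)]
    decide
  · push Not at hd
    apply sum_eq_zero
    intro j hj
    rw [if_neg]
    intro hall
    obtain ⟨a, ha, h'⟩ := hd j (by simpa [Nat.lt_succ_iff] using hj)
    obtain ⟨i, hi, hij, hiL⟩ := hall a ha
    exact h' i hi hij hiL

/-- swapping two consecutive times does not change the other vertices -/
theorem V_swap {M n : ℕ} (w : Fin (n + 1) → ZMod M) (i : ℕ) (hi : i < n) (l : ℕ)
    (hl : l ≠ i + 1) :
    V (w ∘ Equiv.swap (⟨i, by omega⟩ : Fin (n+1)) ⟨i + 1, by omega⟩) l = V w l := by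
  set σ := Equiv.swap (⟨i, by omega⟩ : Fin (n+1)) ⟨i + 1, by omega⟩ with hσ
  have hk : ∀ k : Fin (n+1), ((σ k : ℕ) < l ↔ (k : ℕ) < l) := by
    intro k
    rw [hσ, Equiv.swap_apply_def]
    split_ifs with h1 h2
    · rw [h1]; simp only; omega
    · rw [h2]; simp only; omega
    · rfl
  ext x
  simp only [mem_V, Function.comp]
  constructor
  · rintro ⟨k, rfl⟩
    refine ⟨σ k, ?_⟩
    simp only [hk]
  · rintro ⟨k, rfl⟩
    refine ⟨σ k, ?_⟩
    have : σ (σ k) = k := by rw [hσ]; simp
    simp only [hk, this]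

theorem predAbove_val {n : ℕ} (p : Fin n) (k : Fin (n + 1)) :
    (Fin.predAbove p k : ℕ) = if (k : ℕ) ≤ p then (k : ℕ) else k - 1 := by
  rw [Fin.predAbove]
  by_cases h : p.castSucc < k
  · have h' : (p : ℕ) < k := h
    rw [dif_pos h, if_neg (by omega)]
    rfl
  · have h' : ¬ (p : ℕ) < k := h
    rw [dif_neg h, if_pos (by omega)]
    rfl

theorem succAbove_val {n : ℕ} (p : Fin n) (k : Fin n) :
    (p.succ.succAbove k : ℕ) = if (k : ℕ) ≤ p then (k : ℕ) else k + 1 := by
  rw [Fin.succAbove]
  by_cases h : k.castSucc < p.succ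
  · have h' : (k : ℕ) < p + 1 := h
    rw [if_pos h, if_pos (by omega)]
    rfl
  · have h' : ¬ (k : ℕ) < p + 1 := h
    rw [if_neg h, if_neg (by omega)]
    rfl

theorem pred_succ {n : ℕ} (p : Fin n) (k : Fin n) :
    Fin.predAbove p (p.succ.succAbove k) = k := by
  apply Fin.ext
  rw [predAbove_val, succAbove_val]
  split_ifs <;> omega

theorem V_merge_lt {M n : ℕ} (u : Fin n → ZMod M) (p : Fin n) (l : ℕ) (hl : l ≤ p) :
    V (u ∘ Fin.predAbove p) l = V u l := by
  ext x
  simp only [mem_V, Function.comp]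
  constructor
  · rintro ⟨k, rfl⟩
    refine ⟨Fin.predAbove p k, ?_⟩
    congr 1
    have : ((Fin.predAbove p k : ℕ) < l ↔ (k : ℕ) < l) := by
      rw [predAbove_val]
      split_ifs <;> omega
    simp only [this]
  · rintro ⟨k, rfl⟩
    refine ⟨p.succ.succAbove k, ?_⟩
    rw [pred_succ]
    congr 1
    have : ((p.succ.succAbove k : ℕ) < l ↔ (k : ℕ) < l) := by
      rw [succAbove_val]
      split_ifs <;> omega
    simp only [this]

theorem V_merge_gt {M n : ℕ} (u : Fin n → ZMod M) (p : Fin n) (l : ℕ) (hl : p < l) :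
    V (u ∘ Fin.predAbove p) (l + 1) = V u l := by
  ext x
  simp only [mem_V, Function.comp]
  constructor
  · rintro ⟨k, rfl⟩
    refine ⟨Fin.predAbove p k, ?_⟩
    congr 1
    have : ((Fin.predAbove p k : ℕ) < l ↔ (k : ℕ) < l + 1) := by
      rw [predAbove_val]
      split_ifs <;> omega
    simp only [this]
  · rintro ⟨k, rfl⟩
    refine ⟨p.succ.succAbove k, ?_⟩
    rw [pred_succ]
    congr 1
    have : ((p.succ.succAbove k : ℕ) < l + 1 ↔ (k : ℕ) < l) := by
      rw [succAbove_val]
      split_ifs <;> omega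
    simp only [this]

theorem V_rot {M n : ℕ} (w : Fin (n + 1) → ZMod M) (l : ℕ) (hl : l ≤ n) :
    V (Fin.snoc (α := fun _ => ZMod M) (Fin.tail w) (w 0 + 1) : Fin (n + 1) → ZMod M) l
      = V w (l + 1) := by
  ext x
  simp only [mem_V]
  constructor
  · rintro ⟨k, rfl⟩
    refine Fin.lastCases ?_ (fun k => ?_) k
    · refine ⟨0, ?_⟩
      simp
      omega
    · refine ⟨k.succ, ?_⟩
      simp [Fin.tail]
  · rintro ⟨k, rfl⟩
    refine Fin.cases ?_ (fun k => ?_) k
    · refine ⟨Fin.last n, ?_⟩
      simp
      omega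
    · refine ⟨k.castSucc, ?_⟩
      simp [Fin.tail]

def Door {M n : ℕ} (lab : Finset (ZMod M) → ℕ) (w : Fin (n + 1) → ZMod M) (j : ℕ) : Prop :=
  ∀ a < n + 1, ∃ i, i ≤ n + 1 ∧ i ≠ j ∧ lab (V w i) = a

def Full {M n : ℕ} (lab : Finset (ZMod M) → ℕ) (u : Fin n → ZMod M) : Prop :=
  ∀ a < n + 1, ∃ i ≤ n, lab (V u i) = a

theorem door_rot {M n : ℕ} (lab : Finset (ZMod M) → ℕ) (w : Fin (n + 1) → ZMod M) :
    Door lab (Fin.snoc (α := fun _ => ZMod M) (Fin.tail w) (w 0 + 1) : Fin (n + 1) → ZMod M)
      (n + 1) ↔ Door lab w 0 := by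
  constructor
  · intro h a ha
    obtain ⟨i, hi, hij, hl⟩ := h a ha
    rw [V_rot w i (by omega)] at hl
    exact ⟨i + 1, by omega, by omega, hl⟩
  · intro h a ha
    obtain ⟨i, hi, hij, hl⟩ := h a ha
    obtain ⟨l, rfl⟩ : ∃ l, i = l + 1 := ⟨i - 1, by omega⟩
    refine ⟨l, by omega, by omega, ?_⟩
    rw [V_rot w l (by omega)]
    exact hl

theorem door_swap {M n : ℕ} (lab : Finset (ZMod M) → ℕ) (w : Fin (n + 1) → ZMod M) (i : ℕ)
    (hi : i < n) :
    Door lab (w ∘ Equiv.swap (⟨i, by omega⟩ : Fin (n+1)) ⟨i + 1, by omega⟩) (i + 1)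
      ↔ Door lab w (i + 1) := by
  constructor
  · intro h a ha
    obtain ⟨l, hl, hlj, hll⟩ := h a ha
    rw [V_swap w i hi l hlj] at hll
    exact ⟨l, hl, hlj, hll⟩
  · intro h a ha
    obtain ⟨l, hl, hlj, hll⟩ := h a ha
    refine ⟨l, hl, hlj, ?_⟩
    rw [V_swap w i hi l hlj]
    exact hll

theorem door_merge {M n : ℕ} (lab : Finset (ZMod M) → ℕ) (u : Fin n → ZMod M) (p : Fin n) :
    Door lab (u ∘ Fin.predAbove p) (p + 1) ↔ Full lab u := by
  constructor
  · intro h a ha
    obtain ⟨l, hl, hlj, hll⟩ := h a ha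
    rcases lt_or_gt_of_ne hlj with h1 | h1
    · rw [V_merge_lt u p l (by omega)] at hll
      exact ⟨l, by have := p.2; omega, hll⟩
    · obtain ⟨m, rfl⟩ : ∃ m, l = m + 1 := ⟨l - 1, by omega⟩
      rw [V_merge_gt u p m (by omega)] at hll
      exact ⟨m, by omega, hll⟩
  · intro h a ha
    obtain ⟨l, hl, hll⟩ := h a ha
    rcases le_or_gt l p with h1 | h1
    · exact ⟨l, by omega, by omega, by rw [V_merge_lt u p l h1]; exact hll⟩
    · exact ⟨l + 1, by omega, by omega, by rw [V_merge_gt u p l h1]; exact hll⟩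

theorem parity (M n : ℕ) [NeZero M] (hn : Odd n) (lab : Finset (ZMod M) → ℕ)
    (hlab : ∀ S, lab S ≤ n + 1)
    (h1 : ∀ w : Fin (n+1) → ZMod M, ¬ ∀ a ≤ n + 1, ∃ i ≤ n + 1, lab (V w i) = a)
    (h2 : ∃! u : Fin n → ZMod M, Full lab u) : False := by
  classical
  -- total
  have htot : ∑ j ∈ range (n + 1 + 1), ∑ w : Fin (n + 1) → ZMod M,
      (if Door lab w j then (1 : ZMod 2) else 0) = 0 := by
    rw [sum_comm]
    apply sum_eq_zero
    intro w _
    exact @doors_even (n + 1) (fun i => lab (V w i)) (fun i _ => hlab _) (h1 w)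
      (fun j => Classical.propDecidable _)
  set T : ℕ → ZMod 2 := fun j => ∑ w : Fin (n + 1) → ZMod M,
      (if Door lab w j then (1 : ZMod 2) else 0) with hT
  have hrot : T (n + 1) = T 0 := by
    simp only [hT]
    let rot : (Fin (n + 1) → ZMod M) ≃ (Fin (n + 1) → ZMod M) :=
      { toFun := fun w => (Fin.snoc (α := fun _ => ZMod M) (Fin.tail w) (w 0 + 1))
        invFun := fun w => Fin.cons (α := fun _ => ZMod M) (w (Fin.last n) - 1) (Fin.init w)
        left_inv := by
          intro w
          ext k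
          refine Fin.cases ?_ (fun k => ?_) k
          · simp
          · simp [Fin.tail]
        right_inv := by
          intro w
          ext k
          refine Fin.lastCases ?_ (fun k => ?_) k
          · simp
          · simp [Fin.init] }
    rw [← Equiv.sum_comp rot]
    apply sum_congr rfl
    intro w _
    have := door_rot lab w
    simp only [rot, Equiv.coe_fn_mk, this]
  obtain ⟨u0, hu0, hu0'⟩ := h2
  have hfull : ∑ u : Fin n → ZMod M, (if Full lab u then (1 : ZMod 2) else 0) = 1 := by
    rw [sum_eq_single u0]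
    · rw [if_pos hu0]
    · intro u _ hne
      rw [if_neg]
      intro h
      exact hne (hu0' u h)
    · intro h; exact absurd (mem_univ _) h
  have hmid : ∀ p : Fin n, T (p + 1) = 1 := by
    intro p
    rw [← hfull]
    simp only [hT]
    set a : Fin (n+1) := ⟨p, by omega⟩ with ha
    set b : Fin (n+1) := ⟨p + 1, by omega⟩ with hb
    rw [← sum_filter_add_sum_filter_not univ (fun w : Fin (n+1) → ZMod M => w a = w b)]
    have hz : ∑ w ∈ univ.filter (fun w : Fin (n+1) → ZMod M => ¬ w a = w b),
        (if Door lab w (p + 1) then (1 : ZMod 2) else 0) = 0 := by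
      apply sum_involution (fun w _ => w ∘ Equiv.swap a b)
      · intro w _
        have := door_swap lab w p p.2
        rw [← ha, ← hb] at this
        simp only [this]
        split_ifs
        · decide
        · decide
      · intro w hw _ h
        have h' := congrFun h a
        simp only [Function.comp, Equiv.swap_apply_left] at h'
        simp only [mem_filter, mem_univ, true_and] at hw
        exact hw h'.symm
      · intro w hw
        simp only [mem_filter, mem_univ, true_and, Function.comp, Equiv.swap_apply_left,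
          Equiv.swap_apply_right] at hw ⊢
        exact fun h => hw h.symm
      · intro w _
        ext k
        simp [Function.comp]
    rw [hz, add_zero]
    symm
    apply sum_nbij' (fun u => u ∘ Fin.predAbove p) (fun w => w ∘ p.succ.succAbove)
    · intro u _
      simp only [mem_filter, mem_univ, true_and, Function.comp]
      congr 1
      apply Fin.ext
      rw [predAbove_val, predAbove_val]
      simp [ha, hb]
    · intro w _; exact mem_univ _
    · intro u _
      ext k
      simp only [Function.comp, pred_succ]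
    · intro w hw
      simp only [mem_filter, mem_univ, true_and] at hw
      ext k
      simp only [Function.comp]
      by_cases hk : (k : ℕ) = p + 1
      · have e1 : k = b := Fin.ext hk
        have e2 : p.succ.succAbove (Fin.predAbove p k) = a := by
          apply Fin.ext
          rw [succAbove_val, predAbove_val]
          simp [ha, hk]
        rw [e2, e1, hw]
      · congr 1
        apply Fin.ext
        rw [succAbove_val, predAbove_val]
        split_ifs <;> omega
    · intro u _
      have := door_merge lab u p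
      simp only [this]
  have hsum : ∑ j ∈ range (n + 1 + 1), T j = 0 := htot
  rw [sum_range_succ, sum_range_succ', hrot] at hsum
  have hm : ∑ j ∈ range n, T (j + 1) = (n : ZMod 2) := by
    rw [sum_congr rfl (g := fun _ => (1 : ZMod 2))]
    · simp
    · intro j hj
      exact hmid ⟨j, mem_range.1 hj⟩
  rw [hm] at hsum
  have hn1 : (n : ZMod 2) = 1 := by
    obtain ⟨k, rfl⟩ := hn
    push_cast
    have : (2 : ZMod 2) = 0 := by decide
    rw [this]; simp
  rw [hn1, add_assoc] at hsum
  have h3 : T 0 + T 0 = 0 := CharTwo.add_self_eq_zero _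
  rw [h3] at hsum
  exact absurd hsum (by decide)

end Pool.Agent.U447.Exp
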